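import Pool.Agent.W81.FA.Mean
import Pool.Agent.W81.FH.Box

/-!
Sums of bounded Siegel-Walfisz functions along almost all polynomials of height at most `H`,
simultaneously for all `x` of a long range and all residue classes with small moduli.
-/

namespace Pool.Agent.W81.FA

open Finset Polynomial Filter
open Pool.Agent.H442R2.EHI (evt_log_pow evt_log_ge)
open Pool.Agent.H300R2.BH
open Pool.Agent.H300R2.FB
open Pool.Agent.W81.FH (count_bad TT' hbox mem_hbox phi pol pol_phi phi_inj pol_neg)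

lemma SG_nonneg (g : ℕ → ℂ) (q b : ℕ) (F : ℤ[X]) (K : ℕ) : 0 ≤ SG g q b F K := norm_nonneg _

lemma SG_neg (g : ℕ → ℂ) (q b : ℕ) (F : ℤ[X]) (K : ℕ) : SG g q b (-F) K = SG g q b F K := by
  unfold SG
  simp only [eval_neg, Int.natAbs_neg]

lemma SG_lip (g : ℕ → ℂ) (hg : ∀ n, ‖g n‖ ≤ 1) (q b : ℕ) (F : ℤ[X]) (x y : ℕ) (hxy : x ≤ y) :
    |SG g q b F y - SG g q b F x| ≤ (y : ℝ) - x := by
  unfold SG
  refine (abs_norm_sub_norm_le _ _).trans ?_
  have hU : (Icc 1 y).filter (fun k => k % q = b) =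
      (Icc 1 x).filter (fun k => k % q = b) ∪ (Ioc x y).filter (fun k => k % q = b) := by
    ext k; simp only [mem_union, mem_filter, mem_Icc, mem_Ioc]; omega
  rw [hU, sum_union (by
    rw [disjoint_left]
    intro k hk hk2
    rw [mem_filter, mem_Icc] at hk; rw [mem_filter, mem_Ioc] at hk2; omega), add_sub_cancel_left]
  refine (norm_sum_le _ _).trans ?_
  calc ∑ k ∈ (Ioc x y).filter (fun k => k % q = b), ‖g (F.eval (k : ℤ)).natAbs‖ ≤
        ∑ k ∈ (Ioc x y).filter (fun k => k % q = b), (1:ℝ) :=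
        sum_le_sum fun k _ => hg _
    _ ≤ ∑ k ∈ Ioc x y, (1:ℝ) :=
        sum_le_sum_of_subset_of_nonneg (filter_subset _ _) (fun _ _ _ => by norm_num)
    _ = (y : ℝ) - x := by
        rw [sum_const, Nat.card_Ioc, nsmul_eq_mul, mul_one, Nat.cast_sub hxy]

/-- the sum is large somewhere -/
def LBad (g : ℕ → ℂ) (q b U B H : ℕ) (F : ℤ[X]) : Prop :=
  ∃ x : ℕ, Real.log H ^ B ≤ x ∧ (x : ℝ) * Real.log H ^ B ≤ H ∧
    (x : ℝ) / Real.log H ^ U < SG g q b F x

/-- the sum is large somewhere, for some class -/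
def CBad (g : ℕ → ℂ) (Cq U B H : ℕ) (F : ℤ[X]) : Prop :=
  ∃ q b : ℕ, 1 ≤ q ∧ (q : ℝ) ≤ Real.log H ^ Cq ∧ LBad g q b U B H F

lemma CBad_neg (g : ℕ → ℂ) (Cq U B H : ℕ) (F : ℤ[X]) : CBad g Cq U B H (-F) ↔ CBad g Cq U B H F := by
  unfold CBad LBad
  simp only [SG_neg]

open Classical in
theorem pos_one (j : ℕ) (hj : 1 ≤ j) (g : ℕ → ℂ) (hg : ∀ n, ‖g n‖ ≤ 1)
    (hF : SmallFourier g) (Cq U : ℕ) : ∃ B H0 : ℕ, ∀ H : ℕ, H0 ≤ H → ∀ q0 b0 : ℕ,
    1 ≤ q0 → (q0 : ℝ) ≤ Real.log H ^ Cq →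
    (((TT' j H 0).filter (fun p => LBad g q0 b0 U B H (FP j H p.1 p.2.1 p.2.2))).card : ℝ) ≤
      (2 * H + 1) ^ (j + 1) / Real.log H ^ (U + 2 * Cq + 1) := by
  set U1 := 3 * U + 2 * Cq + 5 with hU1
  obtain ⟨B1, H1, hm⟩ := mean_box j hj g hg hF Cq (2 * U1)
  have hev : ∀ᶠ H : ℕ in atTop, H1 ≤ H ∧ 3 ≤ H ∧ 200 ≤ Real.log H := by
    filter_upwards [eventually_ge_atTop H1, eventually_ge_atTop 3, evt_log_ge 200] with H h1 h2 h3
    exact ⟨h1, h2, h3⟩
  obtain ⟨H0, hH0⟩ := eventually_atTop.mp hev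
  refine ⟨B1 + 1, H0, fun H hH q0 b0 hq0 hq0L => ?_⟩
  obtain ⟨hH1, hH3, hL⟩ := hH0 H hH
  set L := Real.log H with hLdef
  have hL0 : 0 < L := by linarith
  have hL1 : 1 ≤ L := by linarith
  have hLp0 : ∀ n : ℕ, 0 < L ^ n := fun n => by positivity
  have hLp : ∀ n : ℕ, 1 ≤ L ^ n := fun n => one_le_pow₀ hL1
  have hLmono : ∀ m n : ℕ, m ≤ n → L ^ m ≤ L ^ n := fun m n h => pow_le_pow_right₀ hL1 h
  have hHr : (3:ℝ) ≤ H := by exact_mod_cast hH3
  have hH0' : (0:ℝ) < H := by linarith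
  set cb : ℝ := ((bx j (fun _ => H)).card : ℝ) * ((2 * H + 1 : ℕ) : ℝ) * H with hcb
  have hcb0 : 0 ≤ cb := by positivity
  have hTc : ((TT' j H 0).card : ℝ) = cb := by
    unfold TT'
    rw [card_product, card_product, Nat.card_Ioc, Nat.card_Ioc, hcb, mul_assoc]
    push_cast
    simp only [Nat.zero_add, Nat.sub_zero]
    push_cast
    ring
  have hmean : ∀ K : ℕ, L ^ B1 ≤ K → (K : ℝ) * L ^ B1 ≤ H →
      ∑ p ∈ TT' j H 0, SG g q0 b0 (FP j H p.1 p.2.1 p.2.2) K ≤ (cb / L ^ U1) * K := by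
    intro K hK hKH
    have h1 := hm H hH1 q0 b0 hq0 hq0L K hK hKH
    rw [← hLdef] at h1
    have h2 : ∑ p ∈ TT' j H 0, SG g q0 b0 (FP j H p.1 p.2.1 p.2.2) K ^ 2 ≤
        cb * (K : ℝ) ^ 2 / L ^ (2 * U1) := by
      refine le_trans (le_of_eq ?_) h1
      unfold TT'
      rw [sum_product]
      refine sum_congr rfl fun r _ => ?_
      rw [sum_product]
    have h3 := sq_sum_le_card_mul_sum_sq (s := TT' j H 0)
      (f := fun p => SG g q0 b0 (FP j H p.1 p.2.1 p.2.2) K)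
    rw [hTc] at h3
    apply le_of_sq_le_sq _ (by positivity)
    refine h3.trans ?_
    calc cb * ∑ p ∈ TT' j H 0, SG g q0 b0 (FP j H p.1 p.2.1 p.2.2) K ^ 2
        ≤ cb * (cb * (K : ℝ) ^ 2 / L ^ (2 * U1)) := mul_le_mul_of_nonneg_left h2 hcb0
      _ = ((cb / L ^ U1) * K) ^ 2 := by
          rw [mul_comm 2 U1, pow_mul]
          field_simp
  have hcount := count_bad (TT' j H 0) (fun p K => SG g q0 b0 (FP j H p.1 p.2.1 p.2.2) K) L
    (L ^ B1) (cb / L ^ U1) H B1 U (by linarith) (hLp _)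
    (by positivity) hmean (fun p _ K => SG_nonneg _ _ _ _ _) (by
      intro p _ x y hxy
      refine (SG_lip g hg q0 b0 _ x y hxy).trans ?_
      have h1 : (0:ℝ) ≤ (y : ℝ) - x := by
        have : (x:ℝ) ≤ y := by exact_mod_cast hxy
        linarith
      nlinarith)
  have hsub : (TT' j H 0).filter (fun p => LBad g q0 b0 U (B1 + 1) H (FP j H p.1 p.2.1 p.2.2)) ⊆
      (TT' j H 0).filter (fun p => ∃ x : ℕ, L ^ B1 ≤ x ∧ (x : ℝ) * L ^ (B1 + 1) ≤ H ∧
      (x : ℝ) / L ^ U < SG g q0 b0 (FP j H p.1 p.2.1 p.2.2) x) := by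
    intro p hp
    rw [mem_filter] at hp ⊢
    obtain ⟨hpT, x, hx1, hx2, hx3⟩ := hp
    exact ⟨hpT, x, (hLmono _ _ (by omega)).trans hx1, hx2, hx3⟩
  have hcard : (((TT' j H 0).filter (fun p => LBad g q0 b0 U (B1 + 1) H
      (FP j H p.1 p.2.1 p.2.2))).card : ℝ) ≤ 96 * L ^ (2 * U + 1) * (cb / L ^ U1 * (1 + L)) := by
    refine le_trans ?_ hcount
    exact_mod_cast card_le_card hsub
  refine hcard.trans ?_
  have hcb2 : cb ≤ (2 * H + 1) ^ (j + 1) := by
    rw [hcb, card_bx]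
    have h1 : ∏ i : Fin (j - 1), (((2 * H + 1 : ℕ)) : ℝ) = (2 * (H:ℝ) + 1) ^ (j - 1) := by
      rw [prod_const, card_univ, Fintype.card_fin]
      push_cast
      ring
    rw [h1]
    push_cast
    calc (2 * (H:ℝ) + 1) ^ (j - 1) * (2 * H + 1) * H ≤ (2 * (H:ℝ) + 1) ^ (j - 1) * (2 * H + 1) * (2 * H + 1) := by
          gcongr
          linarith
      _ = (2 * (H:ℝ) + 1) ^ (j + 1) := by
          rw [mul_assoc, ← pow_two, ← pow_add]
          congr 1
          omega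
  rw [le_div_iff₀ (hLp0 _)]
  have e1 : L ^ U1 = L ^ (2 * U + 1) * L ^ 3 * L ^ (U + 2 * Cq + 1) := by
    rw [← pow_add, ← pow_add, hU1]
    congr 1
    ring
  calc 96 * L ^ (2 * U + 1) * (cb / L ^ U1 * (1 + L)) * L ^ (U + 2 * Cq + 1)
      = cb * (96 * (1 + L) / L ^ 3) := by
        rw [e1]
        have p1 := hLp0 (2 * U + 1)
        have p2 := hLp0 (U + 2 * Cq + 1)
        field_simp
    _ ≤ cb * 1 := by
        apply mul_le_mul_of_nonneg_left _ hcb0
        rw [div_le_one (hLp0 _)]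
        nlinarith [mul_pos hL0 hL0]
    _ ≤ (2 * H + 1) ^ (j + 1) := by rw [mul_one]; exact hcb2

open Classical in
theorem pos_part (j : ℕ) (hj : 1 ≤ j) (g : ℕ → ℂ) (hg : ∀ n, ‖g n‖ ≤ 1)
    (hF : SmallFourier g) (Cq U : ℕ) : ∃ B H0 : ℕ, ∀ H : ℕ, H0 ≤ H →
    (((TT' j H 0).filter (fun p => CBad g Cq U B H (FP j H p.1 p.2.1 p.2.2))).card : ℝ) ≤
      (2 * H + 1) ^ (j + 1) / Real.log H ^ (U + 1) := by
  obtain ⟨B, H1, h1⟩ := pos_one j hj g hg hF Cq U
  obtain ⟨H2, hH2⟩ := eventually_atTop.mp (evt_log_ge 1)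
  refine ⟨B, max H1 H2, fun H hH => ?_⟩
  have hL1 := hH2 H ((le_max_right _ _).trans hH)
  have h2 := h1 H ((le_max_left _ _).trans hH)
  set L := Real.log H with hLdef
  have hL0 : 0 < L := by linarith
  have hLp0 : ∀ n : ℕ, 0 < L ^ n := fun n => by positivity
  set Q := ⌊L ^ Cq⌋₊ with hQ
  have hQle : (Q:ℝ) ≤ L ^ Cq := Nat.floor_le (by positivity)
  set P : ℝ := (2 * H + 1) ^ (j + 1) with hP
  have hP0 : 0 ≤ P := by positivity
  have hsub : (TT' j H 0).filter (fun p => CBad g Cq U B H (FP j H p.1 p.2.1 p.2.2)) ⊆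
      (Icc 1 Q ×ˢ range Q).biUnion (fun qb => (TT' j H 0).filter (fun p =>
        LBad g qb.1 qb.2 U B H (FP j H p.1 p.2.1 p.2.2))) := by
    intro p hp
    rw [mem_filter] at hp
    obtain ⟨hpT, q, b, hq1, hqL, hbad⟩ := hp
    rw [mem_biUnion]
    have hqQ : q ≤ Q := Nat.le_floor hqL
    have hb : b < q := by
      by_contra hge
      obtain ⟨x, hx1, -, hx3⟩ := hbad
      have h0 : SG g q b (FP j H p.1 p.2.1 p.2.2) x = 0 := by
        unfold SG
        have : (Icc 1 x).filter (fun k => k % q = b) = ∅ := by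
          rw [filter_eq_empty_iff]
          intro k _ hk
          have := Nat.mod_lt k (by omega : 0 < q)
          omega
        rw [this, sum_empty, norm_zero]
      rw [h0] at hx3
      have h3 : (0:ℝ) ≤ x / L ^ U := by positivity
      linarith
    refine ⟨(q, b), ?_, ?_⟩
    · rw [mem_product, mem_Icc, mem_range]
      exact ⟨⟨hq1, hqQ⟩, lt_of_lt_of_le hb hqQ⟩
    · rw [mem_filter]
      exact ⟨hpT, hbad⟩
  have h3 := (card_le_card hsub).trans card_biUnion_le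
  have h4 : (((TT' j H 0).filter (fun p => CBad g Cq U B H (FP j H p.1 p.2.1 p.2.2))).card : ℝ) ≤
      ∑ qb ∈ Icc 1 Q ×ˢ range Q, (((TT' j H 0).filter (fun p =>
        LBad g qb.1 qb.2 U B H (FP j H p.1 p.2.1 p.2.2))).card : ℝ) := by
    exact_mod_cast h3
  refine h4.trans ?_
  calc ∑ qb ∈ Icc 1 Q ×ˢ range Q, (((TT' j H 0).filter (fun p =>
        LBad g qb.1 qb.2 U B H (FP j H p.1 p.2.1 p.2.2))).card : ℝ)
      ≤ ∑ qb ∈ Icc 1 Q ×ˢ range Q, P / L ^ (U + 2 * Cq + 1) := by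
        refine sum_le_sum fun qb hqb => ?_
        rw [mem_product, mem_Icc] at hqb
        apply h2 qb.1 qb.2 hqb.1.1
        refine le_trans ?_ hQle
        exact_mod_cast hqb.1.2
    _ = (Q : ℝ) * Q * (P / L ^ (U + 2 * Cq + 1)) := by
        rw [sum_const, card_product, Nat.card_Icc, card_range, nsmul_eq_mul]
        push_cast
        ring
    _ ≤ (L ^ Cq * L ^ Cq) * (P / L ^ (U + 2 * Cq + 1)) := by
        gcongr
    _ = P / L ^ (U + 1) := by
        rw [show U + 2 * Cq + 1 = Cq + Cq + (U + 1) by ring, pow_add L (Cq + Cq), pow_add L Cq Cq]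
        have p1 := hLp0 Cq
        have p2 := hLp0 (U + 1)
        field_simp

open Classical in
theorem box_count (j : ℕ) (hj : 1 ≤ j) (g : ℕ → ℂ) (hg : ∀ n, ‖g n‖ ≤ 1)
    (hF : SmallFourier g) (Cq U : ℕ) : ∃ B H0 : ℕ, ∀ H : ℕ, H0 ≤ H →
    (((hbox j H).filter (fun c => CBad g Cq U B H (pol c))).card : ℝ) ≤
      (2 * H + 1) ^ (j + 1) / Real.log H ^ U := by
  obtain ⟨B, H1, h1⟩ := pos_part j hj g hg hF Cq U
  have hev : ∀ᶠ H : ℕ in atTop, H1 ≤ H ∧ 3 ≤ H ∧ 8 ≤ Real.log H ∧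
      Real.log H ^ (U + 2) ≤ (H : ℝ) ^ (1 : ℝ) := by
    filter_upwards [eventually_ge_atTop H1, eventually_ge_atTop 3, evt_log_ge 8,
      evt_log_pow (U + 2) 1 (by norm_num)] with H a1 a2 a3 a4
    exact ⟨a1, a2, a3, a4⟩
  obtain ⟨H0, hH0⟩ := eventually_atTop.mp hev
  refine ⟨B, H0, fun H hH => ?_⟩
  obtain ⟨hH1, hH3, hL8, hLH⟩ := hH0 H hH
  rw [Real.rpow_one] at hLH
  have hpos := h1 H hH1
  set L := Real.log H with hLdef
  have hL0 : 0 < L := by linarith
  have hLp0 : ∀ n : ℕ, 0 < L ^ n := fun n => by positivity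
  have hHr : (3:ℝ) ≤ H := by exact_mod_cast hH3
  set P : ℝ := (2 * H + 1) ^ (j + 1) with hP
  have hP0 : 0 < P := by positivity
  set Sp := (hbox j H).filter (fun c => (0 : ℤ) < c (Fin.last j) ∧ CBad g Cq U B H (pol c)) with hSp
  set Sm := (hbox j H).filter (fun c => c (Fin.last j) < 0 ∧ CBad g Cq U B H (pol c)) with hSm
  set S0 := (hbox j H).filter (fun c => c (Fin.last j) = 0) with hS0
  have hcover : (hbox j H).filter (fun c => CBad g Cq U B H (pol c)) ⊆ S0 ∪ (Sp ∪ Sm) := by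
    intro c hc
    rw [mem_filter] at hc
    rw [mem_union, mem_union, hS0, hSp, hSm, mem_filter, mem_filter, mem_filter]
    by_cases h4 : (0 : ℤ) < c (Fin.last j)
    · exact Or.inr (Or.inl ⟨hc.1, h4, hc.2⟩)
    · by_cases h5 : c (Fin.last j) < 0
      · exact Or.inr (Or.inr ⟨hc.1, h5, hc.2⟩)
      · exact Or.inl ⟨hc.1, by omega⟩
  -- positive part
  have hSpc : (Sp.card : ℝ) ≤ P / L ^ (U + 1) := by
    refine le_trans ?_ hpos
    rw [Nat.cast_le]
    apply card_le_card_of_injOn (phi H)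
    · intro c hc
      rw [mem_coe, hSp, mem_filter] at hc
      obtain ⟨hc1, hc2, hc3⟩ := hc
      rw [mem_coe, mem_filter]
      refine ⟨?_, by rw [pol_phi j hj H c hc1 hc2.le]; exact hc3⟩
      rw [mem_hbox] at hc1
      unfold TT' bx phi
      rw [mem_product, mem_product, mem_Ioc, mem_Ioc, Fintype.mem_piFinset]
      have a0 := hc1 0
      have al := hc1 (Fin.last j)
      refine ⟨fun i => ?_, ⟨by simp only; omega, by simp only; omega⟩, by simp only; omega, by simp only; omega⟩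
      rw [mem_Icc]
      exact hc1 _
    · intro c hc c' hc' h
      rw [mem_coe, hSp, mem_filter] at hc hc'
      exact phi_inj j H c c' hc.1 hc'.1 hc.2.1.le hc'.2.1.le h
  -- negative part
  have hSmc : (Sm.card : ℝ) ≤ P / L ^ (U + 1) := by
    refine le_trans ?_ hSpc
    rw [Nat.cast_le]
    apply card_le_card_of_injOn (fun c : Fin (j + 1) → ℤ => fun i => - c i)
    · intro c hc
      rw [mem_coe, hSm, mem_filter] at hc
      obtain ⟨hc1, hc2, hc3⟩ := hc
      rw [mem_coe, hSp, mem_filter]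
      refine ⟨?_, by simp only; omega, ?_⟩
      · rw [mem_hbox] at hc1 ⊢
        intro i
        have := hc1 i
        simp only
        omega
      · rw [pol_neg, CBad_neg]; exact hc3
    · intro c _ c' _ h
      funext i
      have := congrFun h i
      simp only at this
      omega
  -- leading coefficient zero
  have hS0c : (S0.card : ℝ) ≤ P * (1 / L ^ (U + 2)) := by
    have h4 : S0 ⊆ Fintype.piFinset (fun i : Fin (j + 1) =>
        if i = Fin.last j then ({0} : Finset ℤ) else Icc (-(H : ℤ)) H) := by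
      intro c hc
      rw [hS0, mem_filter, mem_hbox] at hc
      rw [Fintype.mem_piFinset]
      intro i
      split_ifs with hi
      · rw [hi, mem_singleton]; exact hc.2
      · rw [mem_Icc]; exact hc.1 i
    have h5 := card_le_card h4
    rw [Fintype.card_piFinset, Fin.prod_univ_castSucc] at h5
    have h6 : ∀ i : Fin j, (if (Fin.castSucc i) = Fin.last j then ({0} : Finset ℤ) else
        Icc (-(H : ℤ)) H).card = 2 * H + 1 := by
      intro i
      rw [if_neg (Fin.castSucc_lt_last i).ne, Int.card_Icc]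
      omega
    rw [prod_congr rfl (fun i _ => h6 i), prod_const, card_univ, Fintype.card_fin, if_pos rfl,
      card_singleton, mul_one] at h5
    have h8 : (S0.card : ℝ) ≤ (2 * H + 1) ^ j := by exact_mod_cast h5
    refine h8.trans ?_
    have h9 : (1:ℝ) ≤ (2 * H + 1) * (1 / L ^ (U + 2)) := by
      rw [mul_one_div, le_div_iff₀ (hLp0 _), one_mul]
      linarith
    calc (2 * (H:ℝ) + 1) ^ j = (2 * (H:ℝ) + 1) ^ j * 1 := (mul_one _).symm
      _ ≤ (2 * (H:ℝ) + 1) ^ j * ((2 * H + 1) * (1 / L ^ (U + 2))) := by gcongr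
      _ = P * (1 / L ^ (U + 2)) := by rw [hP, pow_succ]; ring
  have hfin : (((hbox j H).filter (fun c => CBad g Cq U B H (pol c))).card : ℝ) ≤
      S0.card + (Sp.card + Sm.card) := by
    have h4 := card_le_card hcover
    have h5 := card_union_le S0 (Sp ∪ Sm)
    have h6 := card_union_le Sp Sm
    have h7 : ((hbox j H).filter (fun c => CBad g Cq U B H (pol c))).card ≤ S0.card + (Sp.card + Sm.card) := by
      omega
    exact_mod_cast h7
  refine hfin.trans ?_
  calc (S0.card : ℝ) + (Sp.card + Sm.card) ≤ P * (1 / L ^ (U + 2)) + (P / L ^ (U + 1) + P / L ^ (U + 1)) := by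
        gcongr
    _ = P / L ^ U * (1 / L ^ 2 + 2 / L) := by
        rw [pow_add L U 2, pow_succ L U]
        field_simp
        ring
    _ ≤ P / L ^ U * 1 := by
        apply mul_le_mul_of_nonneg_left _ (by positivity)
        have h1 : 2 / L ≤ 2 / 8 := div_le_div_of_nonneg_left (by norm_num) (by norm_num) hL8
        have h2 : 1 / L ^ 2 ≤ 1 / 8 := div_le_div_of_nonneg_left (by norm_num) (by norm_num) (by nlinarith)
        linarith
    _ = P / L ^ U := mul_one _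

end Pool.Agent.W81.FA
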