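import Pool.Agent.H534R2.BH_Lam
import Pool.Agent.W81.FX.FullX
import Pool.Agent.W81.FA.Core

/-!
Mean squares of bounded Siegel-Walfisz functions along all polynomials of height at most `H`, the
variable in a residue class.
-/

namespace Pool.Agent.W81.FA

open Finset Polynomial Filter
open Pool.Agent.H469R2.NK (e norm_e)
open Pool.Agent.H442R2.EHI (norm_add_sq_le evt_log_pow evt_log_ge)
open Pool.Agent.H300R2.BH
open Pool.Agent.H300R2.FB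
open Pool.Agent.W81.FX

/-- small Fourier coefficients near rationals with small denominators -/
def SmallFourier (g : ℕ → ℂ) : Prop :=
  ∀ E1 E3 : ℕ, ∃ x0 : ℕ, ∀ x : ℕ, x0 ≤ x → ∀ q : ℕ, 1 ≤ q → (q : ℝ) ≤ Real.log x ^ E1 →
      ∀ b : ℤ, ∀ β : ℝ, |β - (b : ℝ) / (q : ℝ)| ≤ Real.log x ^ E3 / x →
      ‖∑ n ∈ Icc 1 x, g n * e (n * β)‖ ≤ x / Real.log x ^ (2 * E3)

/-- the value of the sum -/
noncomputable def SG (g : ℕ → ℂ) (q b : ℕ) (F : ℤ[X]) (K : ℕ) : ℝ :=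
  ‖∑ k ∈ (Icc 1 K).filter (fun k => k % q = b), g (F.eval (k : ℤ)).natAbs‖

lemma SG_le (g : ℕ → ℂ) (hg : ∀ n, ‖g n‖ ≤ 1) (q b : ℕ) (F : ℤ[X]) (K : ℕ) :
    SG g q b F K ≤ K := by
  unfold SG
  refine (norm_sum_le _ _).trans ?_
  calc ∑ k ∈ (Icc 1 K).filter (fun k => k % q = b), ‖g (F.eval (k : ℤ)).natAbs‖ ≤
        ∑ k ∈ (Icc 1 K).filter (fun k => k % q = b), (1:ℝ) :=
        sum_le_sum fun k _ => hg _
    _ ≤ ∑ k ∈ Icc 1 K, (1:ℝ) :=
        sum_le_sum_of_subset_of_nonneg (filter_subset _ _) (fun _ _ _ => by norm_num)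
    _ = K := by simp

theorem chA (j : ℕ) (hj : 1 ≤ j) (E0 E6 E9 U Cq : ℕ) (g : ℕ → ℂ) (hg : ∀ n, ‖g n‖ ≤ 1)
    (hF : SmallFourier g) :
    ∃ B x0 : ℕ, ∀ x : ℕ, x0 ≤ x →
    ∀ (K D A A1 a0 : ℕ) (R : ℤ[X]) (m0 : ℤ)
    (H : Fin (j - 1) → ℕ) (σ : ℤ), BoxF j K D A a0 m0 σ x (Real.log x ^ B) →
    (x : ℝ) ≤ D * (K : ℝ) ^ j * Real.log x ^ E0 → Real.log x ^ B ≤ K →
    (K : ℝ) * Real.log x ^ B ≤ A1 → A1 ≤ A → (∀ i, A1 ≤ 2 * H i + 1) →
    (A1 : ℝ) ≤ D * Real.log x ^ E6 → (D : ℝ) ≤ A1 * Real.log x ^ E9 → A ≤ x →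
    (∀ k ∈ Icc 1 K, |((R.eval (k : ℤ) : ℤ) : ℝ)| ≤ (K : ℝ) ^ j / Real.log x ^ B) →
    (∀ i, (H i : ℝ) * Real.log x ^ B ≤ D * (K : ℝ) ^ (j - 1 - (i : ℕ))) →
    ∀ q0 b0 : ℕ, 1 ≤ q0 → (q0 : ℝ) ≤ Real.log x ^ Cq →
    ∑ r ∈ bx j H, ∑ a ∈ Ioc a0 (a0 + A), ∑ d ∈ Ioc D (2 * D),
      SG g q0 b0 (FF (C m0 + R + Rr j r) j σ a d) K ^ 2 ≤
      ((bx j H).card : ℝ) * (A * D * (K : ℝ) ^ 2 / Real.log x ^ U) := by
  classical
  set E2 := U + 2 with hE2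
  obtain ⟨E1, E3, B1, x1, -, hcore⟩ := coreA j hj E0 E2 E6 E9 (U + E0 + 1) 0 Cq
  obtain ⟨x2, hF2⟩ := hF E1 E3
  set B := B1 + E6 + j * E2 + 2 + (E2 + 1) with hB
  have hev : ∀ᶠ x : ℕ in atTop, x1 ≤ x ∧ x2 ≤ x ∧ 3 ≤ x ∧
      1000 * (j + 2) ≤ Real.log x := by
    filter_upwards [eventually_ge_atTop x1, eventually_ge_atTop x2,
      eventually_ge_atTop 3, evt_log_ge (1000 * (j + 2))]
      with x h1 h2 h4 h5
    exact ⟨h1, h2, h4, h5⟩
  obtain ⟨x0, hx0⟩ := eventually_atTop.mp hev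
  refine ⟨B, x0, fun x hx K D A A1 a0 R m0 H σ hbox hxDK hxK hKA1 hA1A hA1H hA1D
    hDA1 hAx hR hH q0 b0 hq0 hq0L => ?_⟩
  obtain ⟨hx1, hx2, hx3', hL⟩ := hx0 x hx
  set L := Real.log x with hLdef
  have hj1 : (1:ℝ) ≤ j := by exact_mod_cast hj
  have hL1000 : (1000:ℝ) ≤ L := by nlinarith
  have hL0 : 0 < L := by linarith
  have hL1 : 1 ≤ L := by linarith
  have hLp0 : ∀ n : ℕ, 0 < L ^ n := fun n => by positivity
  have hLp : ∀ n : ℕ, 1 ≤ L ^ n := fun n => one_le_pow₀ hL1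
  have hLmono : ∀ m n : ℕ, m ≤ n → L ^ m ≤ L ^ n := fun m n h => pow_le_pow_right₀ hL1 h
  have hxr : (3:ℝ) ≤ x := by exact_mod_cast hx3'
  have hx0' : (0:ℝ) < x := by linarith
  obtain ⟨hDK, hσ⟩ := boxF_facts (hLp B) hbox
  have hK1r : (1:ℝ) ≤ K := (hLp _).trans hxK
  have hKpos : (0:ℝ) < K := by linarith
  have hK1n : 1 ≤ K := by exact_mod_cast hK1r
  have hKj : (0:ℝ) < (K:ℝ) ^ j := by positivity
  have hKD : (K:ℝ) ≤ D := by
    have h1 : (K:ℝ) * L ^ B ≤ D * L ^ E6 := hKA1.trans hA1D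
    have h2 : (K:ℝ) * L ^ E6 ≤ D * L ^ E6 := by
      refine le_trans ?_ h1
      apply mul_le_mul_of_nonneg_left (hLmono _ _ (by omega)) hKpos.le
    exact le_of_mul_le_mul_right h2 (hLp0 _)
  have hLBK : L ^ B ≤ K := hxK
  have hLBD : L ^ B ≤ D := hLBK.trans hKD
  have hD0 : (0:ℝ) < D := by linarith [hLp B]
  -- `K1`
  set K1 := ⌊(K:ℝ) / L ^ (U + 1)⌋₊ with hK1
  have hK1le : (K1:ℝ) ≤ K / L ^ (U + 1) := Nat.floor_le (by positivity)
  have hK1K : K1 ≤ K := by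
    have : (K1:ℝ) ≤ K := hK1le.trans (div_le_self (by positivity) (hLp _))
    exact_mod_cast this
  have hKK1 : (K:ℝ) ≤ K1 * L ^ E2 := by
    have h1 : (K:ℝ) / L ^ (U + 1) < K1 + 1 := Nat.lt_floor_add_one _
    have h2 : L ≤ (K:ℝ) / L ^ (U + 1) := by
      rw [le_div_iff₀ (hLp0 _)]
      calc L * L ^ (U + 1) = L ^ (U + 2) := by ring
        _ ≤ _ := hLmono _ _ (by omega)
        _ ≤ _ := hLBK
    have h3 : (K:ℝ) / L ^ (U + 1) ≤ K1 * L := by nlinarith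
    calc (K:ℝ) = (K / L ^ (U + 1)) * L ^ (U + 1) := by field_simp
      _ ≤ (K1 * L) * L ^ (U + 1) := by gcongr
      _ = K1 * L ^ E2 := by rw [hE2]; ring
  have hDKn : 2 * D * K ^ j ≤ x := by exact_mod_cast hDK
  set f : ℕ → ℂ := fun n => if n ≤ x then g n else 0 with hf
  have hfx : ∀ n, x < n → f n = 0 := by
    intro n hn
    rw [hf]
    simp only []
    rw [if_neg (by omega)]
  have hfe : ∀ n ∈ Icc 1 x, f n = g n := by
    intro n hn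
    rw [mem_Icc] at hn
    rw [hf]
    simp only []
    rw [if_pos hn.2]
  have hfour : FourierHyp f x E1 E3 := by
    intro q hq hqL b _ β hβ
    rw [sum_congr rfl (fun n hn => by rw [hfe n hn])]
    exact hF2 x hx2 q hq hqL b β hβ
  have hfsq : ∑ n ∈ Icc 1 x, ‖f n‖ ^ 2 ≤ x * L ^ 2 := by
    calc ∑ n ∈ Icc 1 x, ‖f n‖ ^ 2 ≤ ∑ n ∈ Icc 1 x, (1:ℝ) := by
          refine sum_le_sum fun n hn => ?_
          rw [hfe n hn]
          exact pow_le_one₀ (norm_nonneg _) (hg n)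
      _ = x := by simp
      _ = x * 1 := (mul_one _).symm
      _ ≤ x * L ^ 2 := by gcongr; exact hLp 2
  have hRB : ∀ B0 : ℕ, B0 ≤ B → ∀ k ∈ Icc 1 K, |((R.eval (k : ℤ) : ℤ) : ℝ)| ≤
      (K : ℝ) ^ j / L ^ B0 := by
    intro B0 hB0 k hk
    refine (hR k hk).trans ?_
    apply div_le_div_of_nonneg_left hKj.le (hLp0 _) (hLmono _ _ hB0)
  have hHB : ∀ B0 : ℕ, B0 ≤ B → ∀ i, (H i : ℝ) * L ^ B0 ≤ D * (K : ℝ) ^ (j - 1 - (i : ℕ)) := by
    intro B0 hB0 i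
    refine le_trans ?_ (hH i)
    apply mul_le_mul_of_nonneg_left (hLmono _ _ hB0) (Nat.cast_nonneg _)
  -- values
  have hvals := fun r hr a d ha hd => fam_vals j hj x (L ^ B) L E0 E2 K K1 D A a0 R m0 σ H
    (by linarith) hLBD (by
      calc 16 * ((j:ℝ) + 2) * L ^ (j * E2) ≤ L * L ^ (j * E2) := by
            apply mul_le_mul_of_nonneg_right _ (hLp0 _).le
            linarith
        _ = L ^ (j * E2 + 1) := by ring
        _ ≤ L ^ B := hLmono _ _ (by omega)) hK1K hK1n hKK1 hxDK hbox hR hH r hr a d ha hd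
  have hmain := hcore x hx1 f hfx hfour hfsq D K K1 A A1 a0
    R m0 H σ hDKn hxDK ((hLmono _ _ (by omega)).trans hxK) hK1K hKK1
    (le_trans (mul_le_mul_of_nonneg_left (hLmono _ _ (by omega)) hKpos.le) hKA1) hA1A hA1H hA1D
    hDA1 hAx
    (fun k hk => hRB B1 (by omega) k (by rw [mem_Ioc] at hk; rw [mem_Icc]; omega))
    (hHB B1 (by omega)) (by
      intro r hr a ha d hd k hk
      obtain ⟨v1, v2, -⟩ := hvals r hr a d ha hd
      have h1 := v1 k (by rw [mem_Ioc] at hk; rw [mem_Icc]; omega)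
      have h2 := v2 k hk
      have h3 : (0:ℝ) ≤ x / L ^ (E0 + j * E2 + 1) := by positivity
      rw [abs_le]
      constructor
      · have : (0:ℝ) ≤ (((FF (C m0 + R + Rr j r) j σ a d).eval (k : ℤ) : ℤ) : ℝ) := h3.trans h2
        have h4 : (0:ℤ) ≤ (FF (C m0 + R + Rr j r) j σ a d).eval (k : ℤ) := by exact_mod_cast this
        omega
      · have h4 : (FF (C m0 + R + Rr j r) j σ a d).eval (k : ℤ) ≤ (x : ℤ) := by exact_mod_cast h1
        omega) hσ q0 b0 hq0 hq0L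
  set bc : ℝ := ((bx j H).card : ℝ) with hbc
  have hbc0 : 0 ≤ bc := Nat.cast_nonneg _
  have hpt : ∀ r ∈ bx j H, ∀ a ∈ Ioc a0 (a0 + A), ∀ d ∈ Ioc D (2 * D),
      SG g q0 b0 (FF (C m0 + R + Rr j r) j σ a d) K ^ 2 ≤
      2 * (K1 : ℝ) ^ 2 + 2 * ‖∑ k ∈ (Ioc K1 K).filter (fun k => k % q0 = b0),
        fz f ((FF (C m0 + R + Rr j r) j σ a d).eval (k : ℤ))‖ ^ 2 := by
    intro r hr a ha d hd
    obtain ⟨v1, v2, -⟩ := hvals r hr a d ha hd
    have hsplit : ∑ k ∈ (Icc 1 K).filter (fun k => k % q0 = b0), g ((FF (C m0 + R + Rr j r) j σ a d).eval (k : ℤ)).natAbs =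
        ∑ k ∈ (Icc 1 K1).filter (fun k => k % q0 = b0), g ((FF (C m0 + R + Rr j r) j σ a d).eval (k : ℤ)).natAbs +
        ∑ k ∈ (Ioc K1 K).filter (fun k => k % q0 = b0), fz f ((FF (C m0 + R + Rr j r) j σ a d).eval (k : ℤ)) := by
      have hU : (Icc 1 K).filter (fun k => k % q0 = b0) =
          (Icc 1 K1).filter (fun k => k % q0 = b0) ∪ (Ioc K1 K).filter (fun k => k % q0 = b0) := by
        ext k; simp only [mem_union, mem_filter, mem_Icc, mem_Ioc]; omega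
      rw [hU, sum_union]
      · congr 1
        refine sum_congr rfl fun k hk => ?_
        have hk := (mem_filter.mp hk).1
        have h1 := v1 k (by rw [mem_Ioc] at hk; rw [mem_Icc]; omega)
        have h2 := v2 k hk
        have h3 : (0:ℝ) < x / L ^ (E0 + j * E2 + 1) := by positivity
        have h4 : (0:ℝ) < (((FF (C m0 + R + Rr j r) j σ a d).eval (k : ℤ) : ℤ) : ℝ) :=
          lt_of_lt_of_le h3 h2
        have h5 : (0:ℤ) < (FF (C m0 + R + Rr j r) j σ a d).eval (k : ℤ) := by exact_mod_cast h4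
        have h6 : (FF (C m0 + R + Rr j r) j σ a d).eval (k : ℤ) ≤ (x : ℤ) := by exact_mod_cast h1
        unfold fz
        rw [if_pos (by omega), hf]
        simp only []
        rw [if_pos (by omega)]
        congr 1
        omega
      · rw [disjoint_left]
        intro k hk hk2
        rw [mem_filter, mem_Icc] at hk; rw [mem_filter, mem_Ioc] at hk2; omega
    unfold SG
    rw [hsplit]
    refine (norm_add_sq_le _ _).trans ?_
    have h1 : ‖∑ k ∈ (Icc 1 K1).filter (fun k => k % q0 = b0), g ((FF (C m0 + R + Rr j r) j σ a d).eval (k : ℤ)).natAbs‖ ≤ K1 :=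
      SG_le g hg q0 b0 _ K1
    have h2 := pow_le_pow_left₀ (norm_nonneg _) h1 2
    linarith
  have hKsq : (K1:ℝ) ^ 2 ≤ K ^ 2 / L ^ (U + 1) := by
    calc (K1:ℝ) ^ 2 ≤ (K / L ^ (U + 1)) ^ 2 := by gcongr
      _ = (K ^ 2 / L ^ (U + 1)) / L ^ (U + 1) := by field_simp
      _ ≤ K ^ 2 / L ^ (U + 1) := div_le_self (by positivity) (hLp _)
  have hA0 : (0:ℝ) ≤ A := Nat.cast_nonneg _
  calc ∑ r ∈ bx j H, ∑ a ∈ Ioc a0 (a0 + A), ∑ d ∈ Ioc D (2 * D),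
      SG g q0 b0 (FF (C m0 + R + Rr j r) j σ a d) K ^ 2
      ≤ ∑ r ∈ bx j H, ∑ a ∈ Ioc a0 (a0 + A), ∑ d ∈ Ioc D (2 * D), (2 * (K1 : ℝ) ^ 2 +
        2 * ‖∑ k ∈ (Ioc K1 K).filter (fun k => k % q0 = b0), fz f ((FF (C m0 + R + Rr j r) j σ a d).eval (k : ℤ))‖ ^ 2) :=
        sum_le_sum fun r hr => sum_le_sum fun a ha => sum_le_sum fun d hd => hpt r hr a ha d hd
    _ = bc * (A * (D * (2 * (K1 : ℝ) ^ 2))) + 2 * ∑ r ∈ bx j H, ∑ a ∈ Ioc a0 (a0 + A),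
        ∑ d ∈ Ioc D (2 * D),
        ‖∑ k ∈ (Ioc K1 K).filter (fun k => k % q0 = b0), fz f ((FF (C m0 + R + Rr j r) j σ a d).eval (k : ℤ))‖ ^ 2 := by
        simp only [sum_add_distrib, mul_sum]
        rw [sum_const, sum_const, sum_const, Nat.card_Ioc, Nat.card_Ioc, nsmul_eq_mul,
          nsmul_eq_mul, nsmul_eq_mul,
          show a0 + A - a0 = A by omega, show 2 * D - D = D by omega]
    _ ≤ bc * (A * (D * (2 * (K ^ 2 / L ^ (U + 1))))) +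
        2 * (bc * (A * x * ((K : ℝ) ^ 2 / (K : ℝ) ^ j) / L ^ (U + E0 + 1))) := by
        apply add_le_add
        · gcongr
        · exact mul_le_mul_of_nonneg_left hmain (by norm_num)
    _ ≤ bc * (A * (D * (2 * (K ^ 2 / L ^ (U + 1))))) +
        2 * (bc * (A * (D * (K : ℝ) ^ j * L ^ E0) * ((K : ℝ) ^ 2 / (K : ℝ) ^ j) /
          L ^ (U + E0 + 1))) := by
        gcongr
    _ = bc * (A * D * (K : ℝ) ^ 2 / L ^ U) * (4 / L) := by
        rw [show U + E0 + 1 = U + 1 + E0 by ring, pow_add L (U + 1), pow_succ L U]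
        field_simp
        ring
    _ ≤ bc * (A * D * (K : ℝ) ^ 2 / L ^ U) * 1 := by
        apply mul_le_mul_of_nonneg_left _ (by positivity)
        rw [div_le_one hL0]; linarith
    _ = _ := mul_one _

/-- the mean square over all polynomials with positive leading coefficient -/
theorem mean_box (j : ℕ) (hj : 1 ≤ j) (g : ℕ → ℂ) (hg : ∀ n, ‖g n‖ ≤ 1)
    (hF : SmallFourier g) (Cq U : ℕ) :
    ∃ B H0 : ℕ, ∀ H : ℕ, H0 ≤ H → ∀ q0 b0 : ℕ, 1 ≤ q0 → (q0 : ℝ) ≤ Real.log H ^ Cq → ∀ K : ℕ, Real.log H ^ B ≤ K → (K : ℝ) * Real.log H ^ B ≤ H →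
    ∑ r ∈ bx j (fun _ => H), ∑ a ∈ Ioc 0 (0 + (2 * H + 1)), ∑ d ∈ Ioc 0 H,
      SG g q0 b0 (FP j H r a d) K ^ 2 ≤
      ((bx j (fun _ => H)).card : ℝ) * ((2 * H + 1 : ℕ) : ℝ) * H * (K : ℝ) ^ 2 / Real.log H ^ U := by
  classical
  obtain ⟨B1, x1, hb⟩ := chA j hj (U + 3) (U + 3) 0 (U + 2) Cq g hg hF
  set n := B1 with hn
  obtain ⟨H1, hpar⟩ := paramsS j hj U n
  have hev : ∀ᶠ H : ℕ in atTop, H1 ≤ H ∧ x1 ≤ H ∧ 8 ≤ Real.log H ∧
      Real.log H ^ (U + 2) ≤ (H:ℝ) ^ (1:ℝ) ∧ 1 ≤ H := by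
    filter_upwards [eventually_ge_atTop H1, eventually_ge_atTop x1,
      evt_log_ge 8, evt_log_pow (U + 2) 1 (by norm_num), eventually_ge_atTop 1]
      with H h1 h3 h4 h5 h6
    exact ⟨h1, h3, h4, h5, h6⟩
  obtain ⟨H0, hH0⟩ := eventually_atTop.mp hev
  refine ⟨n + U + 4, H0, fun H hH q0 b0 hq0 hq0L K hK hKH0 => ?_⟩
  obtain ⟨hH1, hHx1, hL8, hLH, hHn⟩ := hH0 H hH
  rw [Real.rpow_one] at hLH
  set L := Real.log H with hLdef
  have hL0 : 0 < L := by linarith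
  have hL1 : 1 ≤ L := by linarith
  have hLp0 : ∀ n : ℕ, 0 < L ^ n := fun n => by positivity
  have hLp : ∀ n : ℕ, 1 ≤ L ^ n := fun n => one_le_pow₀ hL1
  have hLmono : ∀ m n : ℕ, m ≤ n → L ^ m ≤ L ^ n := fun m n h => pow_le_pow_right₀ hL1 h
  have hHr : (1:ℝ) ≤ H := by exact_mod_cast hHn
  have hH0' : (0:ℝ) < H := by linarith
  have hK0 : (0:ℝ) < K := lt_of_lt_of_le (hLp0 _) hK
  have hKH : (K : ℝ) * L ^ (n + 1) ≤ H := by
    refine le_trans ?_ hKH0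
    apply mul_le_mul_of_nonneg_left (hLmono _ _ (by omega)) hK0.le
  set M := ⌈(H:ℝ) / L ^ (U + 2)⌉₊ with hM
  have hMge : (H:ℝ) / L ^ (U + 2) ≤ M := Nat.le_ceil _
  have hMle : (M:ℝ) ≤ 2 * (H / L ^ (U + 2)) := by
    have h1 : (M:ℝ) < H / L ^ (U + 2) + 1 := Nat.ceil_lt_add_one (by positivity)
    have h2 : 1 ≤ (H:ℝ) / L ^ (U + 2) := by rw [le_div_iff₀ (hLp0 _), one_mul]; exact hLH
    linarith
  have hM1 : 1 ≤ M := by
    have h2 : 0 < (H:ℝ) / L ^ (U + 2) := by positivity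
    exact Nat.one_le_iff_ne_zero.mpr (by
      intro h0
      rw [h0] at hMge
      simp only [Nat.cast_zero] at hMge
      linarith)
  obtain ⟨hHx, hLx, hpow, hLx2, hxA, hp⟩ := hpar H hH1 K M hK hKH hMge (4 * H * K ^ j) rfl
  set x := 4 * H * K ^ j with hx
  set bc : ℝ := ((bx j (fun _ => H)).card : ℝ) with hbc
  have hbc0 : 0 ≤ bc := Nat.cast_nonneg _
  have hAc : ((Ioc 0 (0 + (2 * H + 1))).card : ℝ) = ((2 * H + 1 : ℕ) : ℝ) := by
    rw [Nat.card_Ioc]; simp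
  have hmain := dyad_box j H M hM1 (bx j (fun _ => H)) (Ioc 0 (0 + (2 * H + 1)))
    (fun r a d => SG g q0 b0 (FP j H r a d) K ^ 2)
    (fun r a d => by positivity) ((K : ℝ) ^ 2) (bc * ((2 * H + 1 : ℕ) : ℝ) * (K : ℝ) ^ 2 / L ^ (U + 2))
    (by
      intro r _ a _ d _
      have h1 := SG_le g hg q0 b0 (FP j H r a d) K
      have h0 : 0 ≤ SG g q0 b0 (FP j H r a d) K := norm_nonneg _
      exact pow_le_pow_left₀ h0 h1 2)
    (by positivity)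
    (by
      intro D hMD hDH
      obtain ⟨p0, p1, p2, p3, p4, p5, p6⟩ := hp D hMD hDH B1 le_rfl
      have h1 := hb x (hHx1.trans hHx) K D (2 * H + 1) (2 * H + 1) 0 0 (-(H:ℤ) - 1)
          (fun _ => H) 1 p1 p2 p0 p3 le_rfl (fun _ => le_rfl) p4
          (by
            rw [pow_zero, mul_one]
            exact_mod_cast (show D ≤ 2 * H + 1 by omega)) p5
          (by
            intro k _
            simp only [eval_zero, Int.cast_zero, abs_zero]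
            have : 0 < Real.log x := by linarith
            positivity) p6 q0 b0 hq0 (hq0L.trans (pow_le_pow_left₀ hL0.le hLx Cq))
      refine h1.trans ?_
      have h2 : (0:ℝ) < Real.log x := by linarith
      calc bc * (((2 * H + 1 : ℕ) : ℝ) * D * (K : ℝ) ^ 2 / Real.log x ^ (U + 2))
          ≤ bc * (((2 * H + 1 : ℕ) : ℝ) * D * (K : ℝ) ^ 2 / L ^ (U + 2)) := by gcongr
        _ = _ := by ring)
  refine hmain.trans ?_
  rw [hAc]
  set AH : ℝ := ((2 * H + 1 : ℕ) : ℝ) with hAH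
  have hAH0 : 0 ≤ AH := Nat.cast_nonneg _
  calc bc * AH * M * (K : ℝ) ^ 2 + 2 * (bc * AH * (K : ℝ) ^ 2 / L ^ (U + 2)) * H
      ≤ bc * AH * (2 * (H / L ^ (U + 2))) * (K : ℝ) ^ 2 +
        2 * (bc * AH * (K : ℝ) ^ 2 / L ^ (U + 2)) * H := by
        gcongr
    _ = (bc * AH * H * (K : ℝ) ^ 2 / L ^ U) * (4 / L ^ 2) := by
        rw [pow_add]
        field_simp
        ring
    _ ≤ (bc * AH * H * (K : ℝ) ^ 2 / L ^ U) * 1 := by
        apply mul_le_mul_of_nonneg_left _ (by positivity)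
        rw [div_le_one (hLp0 _)]
        nlinarith
    _ = _ := mul_one _

end Pool.Agent.W81.FA
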