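import Pool.Agent.W81.FA.Box

/-!
Sums over progressions `-x ≤ n ≤ x`, `n = b mod q`.
-/

namespace Pool.Agent.W81.FA

open Finset Polynomial Filter
open Pool.Agent.H442R2.EHI (evt_log_pow evt_log_ge)
open Pool.Agent.H300R2.BH
open Pool.Agent.H300R2.FB
open Pool.Agent.W81.FH (hbox mem_hbox pol)

/-- the sum over `|n| ≤ x`, `n = b mod q` -/
noncomputable def ZG (g : ℕ → ℂ) (q : ℕ) (b : ℤ) (F : ℤ[X]) (x : ℕ) : ℂ :=
  ∑ n ∈ (Icc (-(x : ℤ)) x).filter (fun n : ℤ => (q : ℤ) ∣ n - b), g (F.eval n).natAbs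

lemma dvd_iff_mod (q : ℕ) (hq : 1 ≤ q) (b : ℤ) (k : ℕ) :
    (q : ℤ) ∣ (k : ℤ) - b ↔ k % q = (b % q).toNat := by
  have hq0 : (0:ℤ) < q := by exact_mod_cast hq
  have h1 : 0 ≤ b % q := Int.emod_nonneg b hq0.ne'
  rw [Int.dvd_iff_emod_eq_zero, ← Int.emod_eq_emod_iff_emod_sub_eq_zero]
  constructor
  · intro h
    rw [← h, ← Int.natCast_mod, Int.toNat_natCast]
  · intro h
    rw [← Int.natCast_mod, h, Int.toNat_of_nonneg h1]

/-- `c_i ↦ (-1)^i c_i` -/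
def ngx {j : ℕ} (c : Fin (j + 1) → ℤ) : Fin (j + 1) → ℤ := fun i => (-1) ^ (i : ℕ) * c i

lemma pol_ngx {j : ℕ} (c : Fin (j + 1) → ℤ) (n : ℤ) : (pol (ngx c)).eval n = (pol c).eval (-n) := by
  unfold pol ngx
  rw [eval_finset_sum, eval_finset_sum]
  refine sum_congr rfl fun i _ => ?_
  rw [eval_mul, eval_mul, eval_C, eval_C, eval_pow, eval_pow, eval_X, eval_X, neg_pow n]
  ring

lemma ngx_mem {j H : ℕ} {c : Fin (j + 1) → ℤ} (hc : c ∈ hbox j H) : ngx c ∈ hbox j H := by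
  rw [mem_hbox] at hc ⊢
  intro i
  have h := hc i
  unfold ngx
  rcases neg_one_pow_eq_or ℤ (i : ℕ) with h1 | h1 <;> rw [h1]
  · omega
  · omega

lemma ngx_inj {j : ℕ} (c c' : Fin (j + 1) → ℤ) (h : ngx c = ngx c') : c = c' := by
  funext i
  have h1 := congrFun h i
  unfold ngx at h1
  have h2 : ((-1 : ℤ)) ^ (i : ℕ) ≠ 0 := pow_ne_zero _ (by norm_num)
  exact mul_left_cancel₀ h2 h1

lemma ZG_le {j : ℕ} (g : ℕ → ℂ) (hg : ∀ n, ‖g n‖ ≤ 1) (q : ℕ) (hq : 1 ≤ q) (b : ℤ)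
    (c : Fin (j + 1) → ℤ) (x : ℕ) :
    ‖ZG g q b (pol c) x‖ ≤ SG g q (b % q).toNat (pol c) x +
      SG g q ((-b) % q).toNat (pol (ngx c)) x + 1 := by
  unfold ZG SG
  have hsplit : (Icc (-(x : ℤ)) x).filter (fun n : ℤ => (q : ℤ) ∣ n - b) =
      (((Icc 1 x).filter (fun k => k % q = (b % q).toNat)).map ⟨fun k : ℕ => (k : ℤ),
        fun a b h => by simpa using h⟩ ∪
      ((Icc 1 x).filter (fun k => k % q = ((-b) % q).toNat)).map ⟨fun k : ℕ => -(k : ℤ),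
        fun a b h => by simpa using h⟩) ∪
      ({0} : Finset ℤ).filter (fun n : ℤ => (q : ℤ) ∣ n - b) := by
    ext n
    simp only [mem_union, mem_filter, mem_Icc, Finset.mem_map, Function.Embedding.coeFn_mk,
      mem_singleton]
    constructor
    · rintro ⟨⟨h1, h2⟩, h3⟩
      rcases lt_trichotomy n 0 with h | h | h
      · left; right
        refine ⟨n.natAbs, ⟨⟨by omega, by omega⟩, ?_⟩, by omega⟩
        rw [← dvd_iff_mod q hq]
        have h4 : ((n.natAbs : ℕ) : ℤ) - -b = -(n - b) := by omega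
        rw [h4]
        exact (dvd_neg).mpr h3
      · right
        exact ⟨h, h3⟩
      · left; left
        refine ⟨n.natAbs, ⟨⟨by omega, by omega⟩, ?_⟩, by omega⟩
        rw [← dvd_iff_mod q hq]
        have h4 : ((n.natAbs : ℕ) : ℤ) - b = n - b := by omega
        rw [h4]
        exact h3
    · rintro ((⟨k, ⟨⟨h1, h2⟩, h3⟩, rfl⟩ | ⟨k, ⟨⟨h1, h2⟩, h3⟩, rfl⟩) | ⟨rfl, h3⟩)
      · refine ⟨⟨by omega, by omega⟩, (dvd_iff_mod q hq b k).mpr h3⟩
      · refine ⟨⟨by omega, by omega⟩, ?_⟩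
        have h4 := (dvd_iff_mod q hq (-b) k).mpr h3
        have h5 : -(k : ℤ) - b = -((k : ℤ) - -b) := by ring
        rw [h5]
        exact (dvd_neg).mpr h4
      · exact ⟨⟨by omega, by omega⟩, h3⟩
  rw [hsplit, sum_union, sum_union]
  · rw [sum_map, sum_map]
    refine (norm_add_le _ _).trans ?_
    apply add_le_add
    · refine (norm_add_le _ _).trans ?_
      apply add_le_add
      · exact le_of_eq rfl
      · refine le_of_eq ?_
        congr 1
        refine sum_congr rfl fun k _ => ?_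
        rw [pol_ngx]
        rfl
    · refine (norm_sum_le _ _).trans ?_
      calc ∑ n ∈ ({0} : Finset ℤ).filter (fun n : ℤ => (q : ℤ) ∣ n - b), ‖g ((pol c).eval n).natAbs‖
          ≤ ∑ n ∈ ({0} : Finset ℤ).filter (fun n : ℤ => (q : ℤ) ∣ n - b), (1:ℝ) :=
            sum_le_sum fun n _ => hg _
        _ ≤ ∑ n ∈ ({0} : Finset ℤ), (1:ℝ) :=
            sum_le_sum_of_subset_of_nonneg (filter_subset _ _) (fun _ _ _ => by norm_num)
        _ = 1 := by simp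
  · rw [disjoint_left]
    intro n h1 h2
    simp only [mem_filter, mem_Icc, Finset.mem_map, Function.Embedding.coeFn_mk] at h1 h2
    obtain ⟨k, hk, rfl⟩ := h1
    obtain ⟨k', hk', h3⟩ := h2
    omega
  · rw [disjoint_left]
    intro n h1 h2
    simp only [mem_union, mem_filter, mem_Icc, Finset.mem_map, Function.Embedding.coeFn_mk,
      mem_singleton] at h1 h2
    obtain ⟨rfl, -⟩ := h2
    rcases h1 with ⟨k, hk, h3⟩ | ⟨k, hk, h3⟩ <;> omega

lemma CBad_mono (g : ℕ → ℂ) (Cq U B B' H : ℕ) (hB : B ≤ B') (hL : 1 ≤ Real.log H) (F : ℤ[X])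
    (h : CBad g Cq U B' H F) : CBad g Cq U B H F := by
  obtain ⟨q, b, hq, hqL, x, hx1, hx2, hx3⟩ := h
  refine ⟨q, b, hq, hqL, x, (pow_le_pow_right₀ hL hB).trans hx1, le_trans ?_ hx2, hx3⟩
  exact mul_le_mul_of_nonneg_left (pow_le_pow_right₀ hL hB) (Nat.cast_nonneg _)

open Classical in
/-- **sums over progressions, for almost all polynomials of height at most `H`** -/
theorem two_sided (j : ℕ) (hj : 1 ≤ j) (g : ℕ → ℂ) (hg : ∀ n, ‖g n‖ ≤ 1)
    (hF : SmallFourier g) (Cq U : ℕ) : ∃ B H0 : ℕ, ∀ H : ℕ, H0 ≤ H →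
    (((hbox j H).filter (fun c => ∃ q : ℕ, 1 ≤ q ∧ (q : ℝ) ≤ Real.log H ^ Cq ∧ ∃ b : ℤ, ∃ x : ℕ,
      Real.log H ^ B ≤ x ∧ (x : ℝ) * Real.log H ^ B ≤ H ∧
      (x : ℝ) / Real.log H ^ U < ‖ZG g q b (pol c) x‖)).card : ℝ) ≤
      (2 * H + 1) ^ (j + 1) / Real.log H ^ U := by
  obtain ⟨B0, H1, h1⟩ := box_count j hj g hg hF Cq (U + 1)
  obtain ⟨H2, hH2⟩ := eventually_atTop.mp (evt_log_ge 4)
  refine ⟨max B0 (U + 1), max H1 H2, fun H hH => ?_⟩
  have hL4 := hH2 H ((le_max_right _ _).trans hH)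
  have h2 := h1 H ((le_max_left _ _).trans hH)
  set L := Real.log H with hLdef
  have hL0 : 0 < L := by linarith
  have hL1 : 1 ≤ L := by linarith
  have hLp0 : ∀ n : ℕ, 0 < L ^ n := fun n => by positivity
  set B := max B0 (U + 1) with hB
  set P : ℝ := (2 * H + 1) ^ (j + 1) with hP
  have hP0 : 0 ≤ P := by positivity
  set S1 := (hbox j H).filter (fun c => CBad g Cq (U + 1) B0 H (pol c)) with hS1
  have hsub : (hbox j H).filter (fun c => ∃ q : ℕ, 1 ≤ q ∧ (q : ℝ) ≤ L ^ Cq ∧ ∃ b : ℤ, ∃ x : ℕ,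
      L ^ B ≤ x ∧ (x : ℝ) * L ^ B ≤ H ∧ (x : ℝ) / L ^ U < ‖ZG g q b (pol c) x‖) ⊆
      S1 ∪ (hbox j H).filter (fun c => CBad g Cq (U + 1) B0 H (pol (ngx c))) := by
    intro c hc
    rw [mem_filter] at hc
    obtain ⟨hcb, q, hq1, hqL, b, x, hx1, hx2, hx3⟩ := hc
    rw [mem_union, hS1, mem_filter, mem_filter]
    by_contra hneg
    push Not at hneg
    obtain ⟨n1, n2⟩ := hneg
    have n1' := n1 hcb
    have n2' := n2 hcb
    have hLB : L ^ B0 ≤ L ^ B := pow_le_pow_right₀ hL1 (le_max_left _ _)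
    have hx1' : L ^ B0 ≤ x := hLB.trans hx1
    have hx2' : (x : ℝ) * L ^ B0 ≤ H :=
      (mul_le_mul_of_nonneg_left hLB (Nat.cast_nonneg _)).trans hx2
    have m1 : SG g q (b % q).toNat (pol c) x ≤ x / L ^ (U + 1) := by
      by_contra hlt
      push Not at hlt
      exact n1' ⟨q, _, hq1, hqL, x, hx1', hx2', hlt⟩
    have m2 : SG g q ((-b) % q).toNat (pol (ngx c)) x ≤ x / L ^ (U + 1) := by
      by_contra hlt
      push Not at hlt
      exact n2' ⟨q, _, hq1, hqL, x, hx1', hx2', hlt⟩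
    have m3 := ZG_le g hg q hq1 b c x
    have m4 : (1:ℝ) ≤ x / L ^ (U + 1) := by
      rw [le_div_iff₀ (hLp0 _), one_mul]
      refine le_trans ?_ hx1
      exact pow_le_pow_right₀ hL1 (le_max_right _ _)
    have m5 : 3 * ((x : ℝ) / L ^ (U + 1)) ≤ x / L ^ U := by
      have e1 : (x : ℝ) / L ^ (U + 1) = (x / L ^ U) / L := by
        rw [pow_succ, div_div]
      rw [e1]
      have e2 : (0:ℝ) ≤ x / L ^ U := by positivity
      rw [mul_div_assoc', div_le_iff₀ hL0]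
      nlinarith
    linarith
  have hc1 := card_le_card hsub
  have hc2 := card_union_le S1 ((hbox j H).filter (fun c => CBad g Cq (U + 1) B0 H (pol (ngx c))))
  have hc3 : ((hbox j H).filter (fun c => CBad g Cq (U + 1) B0 H (pol (ngx c)))).card ≤ S1.card := by
    apply card_le_card_of_injOn ngx
    · intro c hc
      rw [mem_coe, mem_filter] at hc
      rw [mem_coe, hS1, mem_filter]
      exact ⟨ngx_mem hc.1, hc.2⟩
    · intro c _ c' _ h
      exact ngx_inj c c' h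
  have hc4 : (((hbox j H).filter (fun c => ∃ q : ℕ, 1 ≤ q ∧ (q : ℝ) ≤ L ^ Cq ∧ ∃ b : ℤ, ∃ x : ℕ,
      L ^ B ≤ x ∧ (x : ℝ) * L ^ B ≤ H ∧ (x : ℝ) / L ^ U < ‖ZG g q b (pol c) x‖)).card : ℝ) ≤
      2 * (S1.card : ℝ) := by
    have : ((hbox j H).filter (fun c => ∃ q : ℕ, 1 ≤ q ∧ (q : ℝ) ≤ L ^ Cq ∧ ∃ b : ℤ, ∃ x : ℕ,
      L ^ B ≤ x ∧ (x : ℝ) * L ^ B ≤ H ∧ (x : ℝ) / L ^ U < ‖ZG g q b (pol c) x‖)).card ≤
      2 * S1.card := by omega
    exact_mod_cast this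
  refine hc4.trans ?_
  calc 2 * (S1.card : ℝ) ≤ 2 * (P / L ^ (U + 1)) := mul_le_mul_of_nonneg_left h2 (by norm_num)
    _ = (P / L ^ U) * (2 / L) := by
        rw [pow_succ]
        field_simp
    _ ≤ (P / L ^ U) * 1 := by
        apply mul_le_mul_of_nonneg_left _ (by positivity)
        rw [div_le_one hL0]; linarith
    _ = _ := mul_one _

/-- Liouville's function on the natural numbers, `0` at `0` -/
noncomputable def lamN (n : ℕ) : ℂ :=
  if n = 0 then 0 else (-1 : ℂ) ^ (ArithmeticFunction.cardFactors n)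

lemma lamN_norm (n : ℕ) : ‖lamN n‖ ≤ 1 := by
  unfold lamN
  split_ifs
  · simp
  · rw [norm_pow, norm_neg, norm_one, one_pow]

lemma lamN_fourier : SmallFourier lamN := by
  intro E1 E3
  obtain ⟨x0, h⟩ := Pool.Agent.H534R2.BH.lam_fourier E1 E3
  refine ⟨x0, fun x hx q hq hqL b β hβ => ?_⟩
  refine le_trans (le_of_eq ?_) (h x hx q hq hqL b β hβ)
  congr 1
  refine sum_congr rfl fun n hn => ?_
  rw [mem_Icc] at hn
  unfold lamN
  rw [if_neg (by omega)]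

end Pool.Agent.W81.FA
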